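import Pool.Agent.V11109.NN.Final

/-!
# Two infinite reduced free powers of `O_∞` which are not isomorphic

For the vacuum state `ω₁` the infinite free power is again generated by a Cuntz family and has the
completely positive approximation property (Poisson kernels). For a state `ω₂` whose centralizer
contains a unitary of expectation zero the infinite free power does not have this property: the
centralizer gives right multiplication operators on the GNS space, and an estimate of Powers shows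
that the sum of `9` of the operators `a ↦ u a u^*` has norm `< 9 (1 - ε)` on the Hilbert space level.
-/

set_option autoImplicit false

namespace Pool.Agent.Results.MP_0b3510_an.NotIsomorphic

open Pool.Agent.V11109.Free Pool.Agent.V11109.Conj Pool.Agent.V11109.NN

/-- Let `A` be the Cuntz algebra `O_∞`. There are states `ω₁`, `ω₂` on `A` such that the reduced
free product `D₁` of countably many copies of `(A, ω₁)` and the reduced free product `D₂` of
countably many copies of `(A, ω₂)` are not *-isomorphic. (These reduced free products exist and the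
statement holds for all models of them.) -/
theorem result : ∀ (A : Type) [CStarAlgebra A] (s : ℕ → A), IsCuntzInfty s →
    ∃ ω₁ ω₂ : A →ₗ[ℂ] ℂ, IsState ω₁ ∧ IsState ω₂ ∧
    (∀ ω ∈ ({ω₁, ω₂} : Set (A →ₗ[ℂ] ℂ)), ∃ (D : Type) (_ : CStarAlgebra D) (ρ : D →ₗ[ℂ] ℂ)
      (e : ℕ → A →⋆ₐ[ℂ] D), IsReducedFreeProd (fun _ => A) (fun _ => ω) ρ e) ∧
    ∀ (D₁ D₂ : Type) [CStarAlgebra D₁] [CStarAlgebra D₂] (ρ₁ : D₁ →ₗ[ℂ] ℂ) (ρ₂ : D₂ →ₗ[ℂ] ℂ)
      (e₁ : ℕ → A →⋆ₐ[ℂ] D₁) (e₂ : ℕ → A →⋆ₐ[ℂ] D₂),
      IsReducedFreeProd (fun _ => A) (fun _ => ω₁) ρ₁ e₁ →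
      IsReducedFreeProd (fun _ => A) (fun _ => ω₂) ρ₂ e₂ →
      IsEmpty (D₁ ≃⋆ₐ[ℂ] D₂) := by
  intro A _ s hs
  obtain ⟨ω₁, ω₂, hω₁, hω₂, h0, u, hu, hc, hu0⟩ := exists_states' hs
  refine ⟨ω₁, ω₂, hω₁, hω₂, ?_, ?_⟩
  · rintro ω (rfl | hω)
    · exact exists_rfp (fun _ : ℕ => A) (fun _ => ω) (fun _ => hω₁)
    · rw [Set.mem_singleton_iff] at hω
      subst hω
      exact exists_rfp (fun _ : ℕ => A) (fun _ => ω) (fun _ => hω₂)
  · intro D₁ D₂ _ _ ρ₁ ρ₂ e₁ e₂ h₁ h₂
    refine ⟨fun Φ => ?_⟩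
    exact not_factorApprox_power h₂ hu hc hu0
      (factorApprox_congr Φ (factorApprox_power hs.family h0 h₁ hs.generates))

end Pool.Agent.Results.MP_0b3510_an.NotIsomorphic
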